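import Mathlib
import Pool.Agent.V7H95.Wl.Chow

/-!
# The conjectures of Murre for products with constant abelian varieties whose Frobenius eigenvalues lie
# in regular blocks

Let `q > 1` be a power of the prime number `p`, and let `f i` (`i` in a finite set `I`) be Weil
`q`-polynomials: monic polynomials with integral coefficients all of whose complex roots have absolute
value `√q`. By Weil, Honda and Tate they correspond, up to multiplicities, to isogeny classes of abelian
varieties over the field with `q` elements. A root `x` has a slope `λ` (a `p`-adic valuation, normalised
such that `q` has slope one), its complex conjugate is `q / x`; the weights are the numbers
`u = D (2 λ - 1)`, with a denominator `D > 0` such that they are integers. Suppose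
(`IsRegularFamily`) that the roots are not real and that each root `x`

* generates a number field which has degree `ℓ ^ k`, `ℓ` a prime number, over an imaginary quadratic
  subfield `K`, and `ℓ` does not divide the sum of the weights over the conjugates of `x` over `K`
  (`IsOverQuadratic`);
* or it generates a field of degree `2 ℓ ^ k`, and the sum of the weights over each set that contains
  one of each two complex conjugate conjugates of `x` is not divisible by `ℓ`
  (`HasPrimePowerDegree`);
* or it belongs to a regular block (`IsInRegularBlock`): a set `B` of roots without complex conjugate
  elements which is stable under a group `P` of automorphisms of the complex numbers that act on `B`
  with orders which are powers of a prime number `ℓ`, such that `B` is one orbit of `P` and for some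
  automorphism `σ` the sum of the weights `u (σ y)`, `y ∈ B`, is not divisible by `ℓ`; or, more
  generally, such that all functions on `B` modulo `ℓ` which are invariant under `P` and orthogonal to
  all translates of the weights vanish (for instance `B = {x}`, if some conjugate of `x` has a weight
  which is not divisible by `ℓ`);

where `x` (the block) shall be flipped against the roots outside of its Galois orbit (outside of `B` and
its conjugate): an automorphism of the complex numbers fixes one of the two and conjugates the other, or
maps `x` to `y` and `y` to the conjugate of `x`. This is no condition in the first two cases if there is
one polynomial `f i` and it is irreducible. **Nothing is assumed on the Galois groups** of the polynomials,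
and their degrees are not bounded.

Let `E` be a subfield of the field of complex numbers which is independent of the roots
(`IsIndependent`): some automorphism of the complex numbers over `E` acts as the complex conjugation on
all roots of the `f i` (so the intersection of `E` with the field generated by the roots is real, and if
`E` is an algebraic extension of `ℚ` this is equivalent).

**Theorem** (`MurreForRankOver E q 0 f`). For all `s > 0`, all abelian varieties `A` over the field with
`q ^ s` elements which are isogenous to products of powers of abelian varieties coming from the field
with `q` elements, with characteristic polynomials `f i`, all smooth projective `Y` whose Frobenius
eigenvalues and their conjugates have powers in `E` (for instance, `E` is the field generated by these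
numbers), and for which homologically trivial self-correspondences of `A × Y` are nilpotent, and all `Z`
over the function field `K` of a variety `S` which are generic fibres of morphisms `Y → S` (for instance
`Y` itself, if `S` is a point): the Chow groups of `A_K × Z` are freely generated by finitely many
products of divisors on `A` over the Chow groups of `Z`, this is compatible with the filtrations given
by Chow-Künneth decompositions, and **the conjectures of Murre (B) (both halves) and (D) for
`A_K × Z` and for `Z` are equivalent**.

The start file `LatticeBoxes` proves this for almost all `f` (large Galois groups); here is a criterion
for each given `f`.

Proof. Let a product of roots times an eigenvalue of `Y` be a power of `q`, up to a root of unity. Apply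
the automorphism over `E` which conjugates the roots: the relation becomes one between the roots and `q`
(`exact_of_regular`). So the slopes satisfy linear relations. They split according to the blocks, since
the correlation of flipped roots is zero. On a block, the relations modulo `ℓ` form a vector space over
the field with `ℓ` elements on which a group acts through an `ℓ`-group; if there is a relation, then
there is a nonzero invariant one, which contradicts the condition on the weights (if the degree is
`ℓ ^ k` over an imaginary quadratic field one takes a Sylow subgroup, which is transitive). Hence the
roots cancel in pairs, all Tate classes on `A × Y` are sums of products of divisor classes on `A` and
Tate classes on `Y`, and the method of Soulé, Geisser and Kahn gives the Künneth formula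
(`kunneth_main`, after the starting files).
-/

set_option autoImplicit false

namespace Pool.Agent.Results.MP_38de51_ag.PrimePowerBlocksH95

open Polynomial Pool.Agent.N166.MU Pool.Agent.V7H95.Wl

/-- **The conjectures of Murre (B) and (D) for `A_K × Z` and for `Z` are equivalent**, if the Frobenius
eigenvalues of the abelian variety `A` over a finite field lie in regular blocks and those of the model
`Y` of `Z` have powers in a field which is independent of them. -/
theorem result (p : ℕ) [Fact p.Prime] (ν : PadicAlgCl p ≃+* ℂ) (q : ℕ) {I : Type} [Finite I]
    (f : I → ℤ[X]) (hf : IsRegularFamily ν q f) (E : IntermediateField ℚ ℂ)
    (hE : IsIndependent E f) : MurreForRankOver E q 0 f :=
  murre_of_exact hf.monic E hf.one_lt 0 (exact_of_regular hf hE)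

end Pool.Agent.Results.MP_38de51_ag.PrimePowerBlocksH95
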