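import Pool.Agent.V7H2.LT.MurreTL

/-!
# Murre's conjectures for Lefschetz towers

`𝒱` is a class of smooth projective geometrically irreducible varieties over the field `k` closed
under products (for example all of them) and containing the point, `C` the Chow groups with
rational coefficients (in the form of their formal properties, `IsChowProj`) and `H` a Weil
cohomology theory (`IsWeilProj`) with the classical fact that correspondences acting as zero on
`H^1` act as zero on `Pic^0 ⊗ ℚ` (`PicardFaithful`).

The Lefschetz tower over a class `S` of pairs `(X, ℓ)`, `ℓ` a divisor class on `X`, consists of the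
pairs obtained from `S` and from the curves by the following operations, in any order and
number: products `(X × Y, a ℓ + b ℓ')`, and Lefschetz maps `f : X → Y`, `(Y, ℓ) ↦ (X, f^* ℓ)`, for
example smooth complete intersections of ample divisors proportional to `ℓ`, and cyclic coverings
branched along a smooth ample divisor proportional to `ℓ`. The class `S` may be empty, or may
consist of the surfaces and the abelian varieties with their ample classes.

The theorem: all `(X, ℓ)` in the tower have a Chow-Kunneth decomposition (Murre's conjecture (A)),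
such that for the associated filtration of the Chow groups

* `F^(a + 1) CH^a(X) = 0` for all `a`,
* `F^0 CH^a(X) = CH^a(X)` if `a ≤ 1` or `a ≥ dim X - 2`,
* `F^1 CH^a(X)` is the group of homologically trivial cycles if `a ≤ 1` or `a ≥ dim X - 1`.

So the conjectures (A), (B), (D) hold for all threefolds, and (A), (B) for all fourfolds of the
tower, for example for ample threefolds and fourfolds in products of curves.
-/

set_option autoImplicit false

open CategoryTheory AlgebraicGeometry

universe u v w

namespace Pool.Agent.Results.MP_38de51_ag.TowersH2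

open Pool.Agent.H914 Pool.Agent.H914.VarClass Pool.Agent.H914.VarClass.Obj Pool.Agent.W492.BB
  Pool.Agent.W550.Corr Pool.Agent.TH133 Pool.Agent.Q73.LS Pool.Agent.V7H2.LT

/-- Murre's conjectures (A), (B) and (D) for Lefschetz towers: (B) for cycles of codimension at
most one or dimension at most two, (D) for cycles of codimension or dimension at most one; in
particular (A), (B), (D) for threefolds and (A), (B) for fourfolds. -/
theorem result {k : Type u} [Field k] {𝒱 : VarClass k} (C : TheoryData.{u, v, 0} 𝒱 ℚ)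
    [IsChowProj C] {K : Type w} [Field K] (H : WeilTheoryData.{u, v, w} C K) [IsWeilProj H]
    (hP : PicardFaithful H) (P : 𝒱.Obj) (hP0 : P.dim = 0) (S : ∀ X : 𝒱.Obj, C.A X → Prop)
    (hS : ∀ (X : 𝒱.Obj) (ℓ : C.A X), S X ℓ →
      ∃ π, IsCK H X π ∧ TriangularLefschetz C ℓ π ∧ Bounded C π)
    (X : 𝒱.Obj) (ℓ : C.A X) (h : Tower H S X ℓ) :
    ∃ π, IsCK H X π ∧ TriangularLefschetz C ℓ π ∧
      (∀ a : ℕ, ckFil C π a (a + 1) = ⊥) ∧
      (∀ a : ℕ, a ≤ 1 ∨ X.dim ≤ a + 2 → ckFil C π a 0 = C.gr X a) ∧
      (∀ a : ℕ, a ≤ 1 ∨ X.dim ≤ a + 1 →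
        ∀ x : C.A X, x ∈ ckFil C π a 1 ↔ C.Deg a x ∧ H.cl x = 0) ∧
      (X.dim ≤ 4 → SatisfiesB C π) ∧ (X.dim ≤ 3 → SatisfiesD H π) := by
  have key : ∃ π, IsCK H X π ∧ TriangularLefschetz C ℓ π ∧ Bounded C π := by
    induction h with
    | base X ℓ h => exact hS X ℓ h
    | curve X ℓ hX hℓ q hq h =>
      have h1 := curve_triangular (H := H) hX hℓ hq h
      refine ⟨_, h1.1, h1.2, bounded_curve hP0 hX (Submodule.smul_mem _ _ hℓ) ?_ h1.1⟩
      have := hasDegree_smul q⁻¹ h
      rwa [inv_mul_cancel₀ hq] at this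
    | prod X Y ℓ ℓ' a b ha hb _ _ ihX ihY =>
      obtain ⟨π, h1, h2, h3⟩ := ihX
      obtain ⟨ρ, h4, h5, h6⟩ := ihY
      exact ⟨_, h1.prod h4, triangular_prod ha hb h1 h2 h4 h5, h3.prod h6⟩
    | map X Y f ℓ hf _ ih =>
      obtain ⟨π, h1, h2, h3⟩ := ih
      obtain ⟨ρ, h4, h5, b, hb, hfac⟩ := exists_of_map_fac hf h1 h2
      exact ⟨ρ, h4, h5, h3.map h4 hb hfac⟩
  obtain ⟨π, h1, h2, h3⟩ := key
  refine ⟨π, h1, h2, fun a => bounded_B1 h1 h3 a, fun a ha => triangular_F0 hP h1 h2 ha,
    fun a ha x => triangular_F1 hP h1 h2 ha x, fun h4 a => ⟨?_, bounded_B1 h1 h3 a⟩,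
    fun h4 a x => ?_⟩
  · exact triangular_F0 hP h1 h2 (by omega)
  · exact triangular_F1 hP h1 h2 (by omega) x

end Pool.Agent.Results.MP_38de51_ag.TowersH2
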